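import Pool.Agent.MP_b9875a_co.H99.Glue2
import Pool.Agent.MP_b9875a_co.H99.Start
import Pool.Agent.MP_b9875a_co.H99.Fin2
import Pool.Agent.MP_b9875a_co.H3.El
import Pool.Agent.MP_b9875a_co.H6.Lower
import Pool.Agent.MP_b9875a_co.H44.Elim
import Pool.Agent.MP_b9875a_co.H45.Dive
import Pool.Agent.MP_b9875a_co.H55.Tl2
import Pool.Agent.MP_b9875a_co.H62.Epoch
import Pool.Agent.MP_b9875a_co.H70.Menger
import Pool.Agent.MP_b9875a_co.H82.Pot
import Pool.Agent.MP_b9875a_co.H86.Target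
import Pool.Agent.MP_b9875a_co.H95.Prep
import Pool.Agent.MP_b9875a_co.H97.Pdive

set_option autoImplicit false

namespace Pool.Agent.Results.MP_b9875a_co.Linear

/-- Minimum out-degree at least 10700 k forces an immersion of the transitive tournament on
k vertices. -/
theorem result :
    ∀ k : ℕ, 1 ≤ k → ∀ (V : Type) [Fintype V] [Nonempty V] (G : Digraph V),
      (∀ v, 10700 * k ≤ ({w | G.Adj v w} : Set V).ncard) →
      ∃ f : Fin k → V, Function.Injective f ∧ ∃ P : Fin k → Fin k → List V,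
        (∀ i j : Fin k, i < j →
          (P i j).head? = some (f i) ∧ (P i j).getLast? = some (f j) ∧ (P i j).Nodup ∧
          ∀ a b : V, (a, b) ∈ (P i j).zip (P i j).tail → G.Adj a b) ∧
        (∀ i j i' j' : Fin k, i < j → i' < j' → (i, j) ≠ (i', j') →
          ∀ a b : V, (a, b) ∈ (P i j).zip (P i j).tail →
            (a, b) ∉ (P i' j').zip (P i' j').tail) := by
  have hm := Pool.Agent.MP_b9875a_co.H70.menger
  have hel := Pool.Agent.MP_b9875a_co.H99.LN.elim
  have hdv := Pool.Agent.MP_b9875a_co.H99.LN.dive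
    (Pool.Agent.MP_b9875a_co.H99.LN.pdive hm Pool.Agent.MP_b9875a_co.H3.EL.el) hel
  exact Pool.Agent.MP_b9875a_co.H99.LN.glue2
    (Pool.Agent.MP_b9875a_co.H86.Tgt.target hm Pool.Agent.MP_b9875a_co.H82.pot)
    Pool.Agent.MP_b9875a_co.H99.LN.epoch hdv (Pool.Agent.MP_b9875a_co.H99.LN.fin hel)
    (Pool.Agent.MP_b9875a_co.H99.LN.prep Pool.Agent.MP_b9875a_co.H99.LN.lower
      Pool.Agent.MP_b9875a_co.H55.tl2 hdv)
    Pool.Agent.MP_b9875a_co.H99.LN.start

end Pool.Agent.Results.MP_b9875a_co.Linear
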